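import Pool.Agent.Helper77.HY.St

set_option autoImplicit false

namespace Pool.Agent.Helper40.HY.EC

open Equiv Equiv.Perm Pool.Agent.Helper35.PM Pool.Agent.Helper77.HY

theorem flen {W : Type} [Fintype W] (H : SimpleGraph W) (hT : TF H) (hC : H.Connected)
    (h3 : 3 ≤ Fintype.card W) (R : Rot H) (d : H.Dart) : 4 ≤ Function.minimalPeriod R.φ d := by
  classical
  have hpos : 0 < Function.minimalPeriod R.φ d :=
    Function.minimalPeriod_pos_of_mem_periodicPts (R.φ.injective.mem_periodicPts d)
  have hper := Function.isPeriodicPt_minimalPeriod R.φ d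
  by_contra hlt
  push Not at hlt
  generalize Function.minimalPeriod R.φ d = p at hpos hper hlt
  interval_cases p
  · have h : R.φ d = d := hper
    have h1 := R.φ_fst d
    rw [h] at h1
    exact d.adj.ne h1
  · have h : R.φ (R.φ d) = d := hper
    have h1 := R.φ_fst d
    have h2 := R.φ_fst (R.φ d)
    rw [h] at h2
    have h3' : R.φ d = d.symm := SimpleGraph.Dart.ext _ _ (Prod.ext h1 h2.symm)
    have h4 : R.r d.symm = d.symm := by rw [← R.φ_apply, h3']
    have h5 : R.r d = d := by
      have := R.φ_apply d.symm
      rw [SimpleGraph.Dart.symm_symm, ← h3', h] at this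
      exact this.symm
    have n1 : ∀ c, H.Adj d.fst c → c = d.snd := by
      intro c hc
      obtain ⟨k, hk⟩ := R.trans d ⟨(d.fst, c), hc⟩ rfl
      rw [zpow_apply_eq_self_of_apply_eq_self h5] at hk
      exact (congrArg (fun e : H.Dart => e.snd) hk).symm
    have n2 : ∀ c, H.Adj d.snd c → c = d.fst := by
      intro c hc
      obtain ⟨k, hk⟩ := R.trans d.symm ⟨(d.snd, c), hc⟩ rfl
      rw [zpow_apply_eq_self_of_apply_eq_self h4] at hk
      exact (congrArg (fun e : H.Dart => e.snd) hk).symm
    have key : ∀ (a b : W), H.Walk a b → (a = d.fst ∨ a = d.snd) → (b = d.fst ∨ b = d.snd) := by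
      intro a b w
      induction w with
      | nil => exact id
      | cons hadj _ ih =>
        intro hab
        apply ih
        rcases hab with rfl | rfl
        · exact Or.inr (n1 _ hadj)
        · exact Or.inl (n2 _ hadj)
    have hall : ∀ b, b = d.fst ∨ b = d.snd := by
      intro b
      obtain ⟨w⟩ := hC.preconnected d.fst b
      exact key _ _ w (Or.inl rfl)
    have hsub : (Finset.univ : Finset W) ⊆ {d.fst, d.snd} := by
      intro b _
      simpa using hall b
    have hc := Finset.card_le_card hsub
    have hc2 : ({d.fst, d.snd} : Finset W).card ≤ 2 := Finset.card_le_two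
    rw [Finset.card_univ] at hc
    omega
  · have h : R.φ (R.φ (R.φ d)) = d := hper
    have h1 := R.φ_fst d
    have h2 := R.φ_fst (R.φ d)
    have h3' := R.φ_fst (R.φ (R.φ d))
    rw [h] at h3'
    refine hT d.fst d.snd (R.φ d).snd d.adj ?_ ?_
    · have := (R.φ d).adj
      rwa [h1] at this
    · have := (R.φ (R.φ d)).adj
      rw [h2, ← h3'] at this
      exact this.symm

theorem main (hE : Pool.Agent.Helper35.PM.StEul) (hCnt : StCnt) : StEc := by
  classical
  intro W _ H hP hT hC h3
  obtain ⟨R⟩ := hP
  have hEu := hE W H R hC (by omega)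
  have hF : 4 * Nat.card (Quotient (SameCycle.setoid R.φ)) ≤ 2 * H.edgeFinset.card := by
    rw [← H.dart_card_eq_twice_card_edges, Nat.card_eq_fintype_card, ← Finset.card_univ,
      ← Finset.card_univ]
    refine Finset.mul_card_image_le_card_of_maps_to
      (f := fun d : H.Dart => (Quotient.mk (SameCycle.setoid R.φ) d)) (fun d _ => Finset.mem_univ _)
      4 ?_
    intro c _
    obtain ⟨d, rfl⟩ := Quotient.exists_rep c
    have h6 : 4 ≤ Function.minimalPeriod R.φ d := flen H hT hC h3 R d
    have himg : (Finset.range 4).image (fun k => (R.φ ^ k) d) ⊆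
        Finset.univ.filter (fun a : H.Dart => Quotient.mk (SameCycle.setoid R.φ) a =
          Quotient.mk (SameCycle.setoid R.φ) d) := by
      intro x hx
      rw [Finset.mem_image] at hx
      obtain ⟨k, _, rfl⟩ := hx
      rw [Finset.mem_filter]
      refine ⟨Finset.mem_univ _, Quotient.sound ?_⟩
      show R.φ.SameCycle ((R.φ ^ k) d) d
      exact (sameCycle_pow_left).2 (SameCycle.refl _ _)
    have hinj : ((Finset.range 4).image (fun k => (R.φ ^ k) d)).card = 4 := by
      rw [Finset.card_image_of_injOn, Finset.card_range]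
      intro i hi j hj hij
      have hi' : i < 4 := by simpa using hi
      have hj' : j < 4 := by simpa using hj
      have hij' : (R.φ)^[i] d = (R.φ)^[j] d := by
        rw [Equiv.Perm.iterate_eq_pow, Equiv.Perm.iterate_eq_pow]
        exact hij
      exact Function.iterate_injOn_Iio_minimalPeriod (lt_of_lt_of_le hi' h6)
        (lt_of_lt_of_le hj' h6) hij'
    rw [← hinj]
    exact Finset.card_le_card himg
  have hF' : (4 : ℤ) * Nat.card (Quotient (SameCycle.setoid R.φ)) ≤ 2 * H.edgeFinset.card := by
    exact_mod_cast hF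
  have he : eN H Finset.univ = H.edgeFinset.card := hCnt.2.2.1 W H
  rw [he]
  have : ((H.edgeFinset.card : ℤ) + 4 ≤ 2 * Fintype.card W) := by linarith
  exact_mod_cast this

end Pool.Agent.Helper40.HY.EC
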